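import Mathlib
import Pool.Agent.Helper386.D5V.Helper386_FF_Place

/-!
Forms in `n + 1` variables, dehomogenization and places.
-/

set_option autoImplicit false

namespace Pool.Agent.Y144.KC

open MvPolynomial FF

variable {n : ℕ}

theorem aeval_scale {K : Type} [Field K] [Algebra ℂ K] {q : ℕ}
    {Q : MvPolynomial (Fin (n + 1)) ℂ} (hQ : Q.IsHomogeneous q) (t : K) (y : Fin (n + 1) → K) :
    aeval (fun i => t * y i) Q = t ^ q * aeval y Q := by
  rw [aeval_def, eval₂_eq', aeval_def, eval₂_eq', Finset.mul_sum]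
  refine Finset.sum_congr rfl fun c hc => ?_
  have h1 : ∑ i, c i = q := by
    have h2 := hQ (mem_support_iff.mp hc)
    rw [Finsupp.weight_apply, Finsupp.sum_fintype _ _ (by simp)] at h2
    simpa using h2
  have h3 : ∏ i, (t * y i) ^ c i = t ^ q * ∏ i, y i ^ c i := by
    rw [← h1, ← Finset.prod_pow_eq_pow_sum, ← Finset.prod_mul_distrib]
    exact Finset.prod_congr rfl fun i _ => mul_pow _ _ _
  rw [h3]
  ring

/-- dehomogenization -/
noncomputable def dh (G : MvPolynomial (Fin (n + 1)) ℂ) : MvPolynomial (Fin n) ℂ :=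
  aeval (Fin.cons (α := fun _ => MvPolynomial (Fin n) ℂ) 1 X) G

theorem aeval_dh {A : Type} [CommRing A] [Algebra ℂ A] (x : Fin n → A)
    (G : MvPolynomial (Fin (n + 1)) ℂ) :
    aeval x (dh G) = aeval (Fin.cons (α := fun _ => A) 1 x) G := by
  unfold dh
  rw [← AlgHom.comp_apply, MvPolynomial.comp_aeval]
  congr 2
  funext i
  refine Fin.cases ?_ (fun i => ?_) i
  · simp
  · simp

theorem dh_ne_zero {G : MvPolynomial (Fin (n + 1)) ℂ} {q : ℕ} (hG : G.IsHomogeneous q)
    (h0 : G ≠ 0) : dh G ≠ 0 := by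
  intro h
  apply h0
  let K' := FractionRing (MvPolynomial (Fin (n + 1)) ℂ)
  let u : Fin (n + 1) → K' := fun i => algebraMap (MvPolynomial (Fin (n + 1)) ℂ) K' (X i)
  have hinj : Function.Injective (algebraMap (MvPolynomial (Fin (n + 1)) ℂ) K') :=
    IsFractionRing.injective _ _
  have hu : ∀ P : MvPolynomial (Fin (n + 1)) ℂ, aeval u P = algebraMap (MvPolynomial (Fin (n + 1)) ℂ) K' P := by
    intro P
    have h1 : aeval u = (IsScalarTower.toAlgHom ℂ (MvPolynomial (Fin (n + 1)) ℂ) K') := by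
      apply MvPolynomial.algHom_ext
      intro i
      simp [u]
    rw [h1]
    rfl
  have hu0 : u 0 ≠ 0 := by
    intro h2
    have h3 : (X 0 : MvPolynomial (Fin (n + 1)) ℂ) = 0 := hinj (by rw [map_zero]; exact h2)
    exact X_ne_zero _ h3
  have h1 : aeval u G = u 0 ^ q * aeval (fun i => (u 0)⁻¹ * u i) G := by
    rw [aeval_scale hG, ← mul_assoc, ← mul_pow, mul_inv_cancel₀ hu0, one_pow, one_mul]
  have h2 : (fun i => (u 0)⁻¹ * u i) =
      Fin.cons (α := fun _ => K') 1 (fun i => (u 0)⁻¹ * u i.succ) := by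
    funext i
    refine Fin.cases ?_ (fun i => ?_) i
    · simp [hu0]
    · simp
  rw [h2, ← aeval_dh, h, map_zero, mul_zero, hu] at h1
  exact hinj (by rw [h1, map_zero])

section place

variable {L : Type} [Field L] [Algebra ℂ L] (P : Place ℂ L)

theorem reg_aeval {σ : Type} (s : σ → L) (hs : ∀ i, P.Reg (s i)) (a : MvPolynomial σ ℂ) :
    P.Reg (aeval s a) := by
  induction a using MvPolynomial.induction_on with
  | C c => rw [MvPolynomial.aeval_C]; exact P.reg_const c
  | add p q hp hq => rw [map_add]; exact P.reg_add hp hq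
  | mul_X p i hp => rw [map_mul, MvPolynomial.aeval_X]; exact P.reg_mul hp (hs i)

open Classical in
/-- the valuation of polynomials in the functions `s i` -/
noncomputable def vv {σ : Type} (s : σ → L) (a : MvPolynomial σ ℂ) : WithTop ℤ :=
  if aeval s a = 0 then ⊤ else (P.ord (aeval s a) : WithTop ℤ)

theorem vv_eq {σ : Type} {s : σ → L} {a : MvPolynomial σ ℂ} (h : aeval s a ≠ 0) :
    vv P s a = (P.ord (aeval s a) : WithTop ℤ) := by
  unfold vv
  rw [if_neg h]

theorem vv_top {σ : Type} {s : σ → L} {a : MvPolynomial σ ℂ} (h : aeval s a = 0) :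
    vv P s a = ⊤ := by
  unfold vv
  rw [if_pos h]

theorem vv_one {σ : Type} (s : σ → L) : vv P s 1 = 0 := by
  rw [vv_eq P (by rw [map_one]; exact one_ne_zero), map_one, P.ord_one]
  rfl

theorem vv_mul {σ : Type} (s : σ → L) (a b : MvPolynomial σ ℂ) :
    vv P s (a * b) = vv P s a + vv P s b := by
  by_cases ha : aeval s a = 0
  · rw [vv_top P ha, vv_top P (by rw [map_mul, ha, zero_mul]), WithTop.top_add]
  by_cases hb : aeval s b = 0
  · rw [vv_top P hb, vv_top P (by rw [map_mul, hb, mul_zero]), WithTop.add_top]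
  rw [vv_eq P ha, vv_eq P hb, vv_eq P (by rw [map_mul]; exact mul_ne_zero ha hb), map_mul,
    P.ord_mul ha hb]
  rfl

theorem vv_add {σ : Type} (s : σ → L) (a b : MvPolynomial σ ℂ) :
    min (vv P s a) (vv P s b) ≤ vv P s (a + b) := by
  by_cases ha : aeval s a = 0
  · have : aeval s (a + b) = aeval s b := by rw [map_add, ha, zero_add]
    have h2 : vv P s (a + b) = vv P s b := by unfold vv; rw [this]
    rw [h2]
    exact min_le_right _ _
  by_cases hb : aeval s b = 0
  · have : aeval s (a + b) = aeval s a := by rw [map_add, hb, add_zero]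
    have h2 : vv P s (a + b) = vv P s a := by unfold vv; rw [this]
    rw [h2]
    exact min_le_left _ _
  by_cases hab : aeval s (a + b) = 0
  · rw [vv_top P hab]
    exact le_top
  rw [vv_eq P ha, vv_eq P hb, vv_eq P hab, map_add]
  have h1 := P.ord_add ha hb (by rwa [map_add] at hab)
  rw [← WithTop.coe_min]
  exact_mod_cast h1

theorem vv_nonneg {σ : Type} {s : σ → L} (hs : ∀ i, P.Reg (s i)) (a : MvPolynomial σ ℂ) :
    0 ≤ vv P s a := by
  by_cases ha : aeval s a = 0
  · rw [vv_top P ha]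
    exact le_top
  rw [vv_eq P ha]
  exact_mod_cast (P.reg_iff ha).1 (reg_aeval P s hs a)

end place

end Pool.Agent.Y144.KC
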