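import Mathlib
import Pool.Agent.Y144.KC.Base
import Pool.Agent.Y192.OG.StE

/-!
Covers which are highly ramified are of log general type: the core of the proof.
-/

set_option autoImplicit false

namespace Pool.Agent.Y144.KC

open MvPolynomial FF Pool.Agent.W602.GT Pool.Agent.Y192.OG

/-- the Laurent polynomial of a form -/
noncomputable def laurp {n : ℕ} (g : MvPolynomial (Fin (n + 1)) ℂ) :
    AddMonoidAlgebra ℂ (Fin n → ℤ) :=
  aeval (Fin.cons (α := fun _ => AddMonoidAlgebra ℂ (Fin n → ℤ)) 1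
    (fun i => AddMonoidAlgebra.single (Pi.single i 1) (1 : ℂ))) g

theorem dh_ne_zero_of_laurp {n : ℕ} {g : MvPolynomial (Fin (n + 1)) ℂ} (h : laurp g ≠ 0) :
    dh g ≠ 0 := by
  intro h0
  apply h
  unfold laurp
  rw [← aeval_dh, h0, map_zero]

theorem ep_laurp {n : ℕ} {K : Type} [Field K] [Algebra ℂ K] (x : Fin n → Kˣ)
    (g : MvPolynomial (Fin (n + 1)) ℂ) :
    ep x (laurp g) = aeval (fun i => (x i : K)) (dh g) := by
  unfold laurp
  rw [← aeval_dh, ← AlgHom.comp_apply, MvPolynomial.comp_aeval]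
  congr 2
  funext i
  rw [ep_single, one_smul]
  congr 1
  unfold xm
  rw [Finset.prod_eq_single i]
  · rw [Pi.single_eq_same, zpow_one]
  · intro j _ hj
    rw [Pi.single_eq_of_ne hj, zpow_zero]
  · intro h
    exact absurd (Finset.mem_univ i) h

section K0

variable (n : ℕ)

/-- the field of rational functions -/
abbrev K0 : Type := FractionRing (MvPolynomial (Fin n) ℂ)

/-- the variables -/
noncomputable def x0 (i : Fin n) : (K0 n)ˣ :=
  Units.mk0 (algebraMap (MvPolynomial (Fin n) ℂ) (K0 n) (X i)) (by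
    intro h
    have h1 : (X i : MvPolynomial (Fin n) ℂ) = 0 :=
      IsFractionRing.injective (MvPolynomial (Fin n) ℂ) (K0 n) (by rw [map_zero]; exact h)
    exact X_ne_zero _ h1)

theorem aeval_x0 (p : MvPolynomial (Fin n) ℂ) :
    aeval (fun i => (x0 n i : K0 n)) p = algebraMap (MvPolynomial (Fin n) ℂ) (K0 n) p := by
  have h1 : aeval (fun i => (x0 n i : K0 n)) =
      (IsScalarTower.toAlgHom ℂ (MvPolynomial (Fin n) ℂ) (K0 n)) := by
    apply MvPolynomial.algHom_ext
    intro i
    simp [x0]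
  rw [h1]
  rfl

theorem x0_ind : AlgebraicIndependent ℂ (fun i => (x0 n i : K0 n)) := by
  rw [algebraicIndependent_iff_injective_aeval]
  intro p q h
  rw [aeval_x0, aeval_x0] at h
  exact IsFractionRing.injective (MvPolynomial (Fin n) ℂ) (K0 n) h

theorem x0_gen : IntermediateField.adjoin ℂ (Set.range fun i => (x0 n i : K0 n)) = ⊤ := by
  rw [eq_top_iff]
  rintro z -
  obtain ⟨a, b, hb, rfl⟩ := IsFractionRing.div_surjective (MvPolynomial (Fin n) ℂ) z
  have h : ∀ p : MvPolynomial (Fin n) ℂ, algebraMap (MvPolynomial (Fin n) ℂ) (K0 n) p ∈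
      IntermediateField.adjoin ℂ (Set.range fun i => (x0 n i : K0 n)) := by
    intro p
    rw [← aeval_x0]
    induction p using MvPolynomial.induction_on with
    | C c => rw [MvPolynomial.aeval_C]; exact IntermediateField.algebraMap_mem _ c
    | add p q hp hq => rw [map_add]; exact add_mem hp hq
    | mul_X p i hp =>
      rw [map_mul, MvPolynomial.aeval_X]
      exact mul_mem hp (IntermediateField.subset_adjoin _ _ ⟨i, rfl⟩)
  exact div_mem (h a) (h b)

end K0

theorem up_core (hlgt : St_lgt) (n r : ℕ) (F : Fin r → MvPolynomial (Fin (n + 1)) ℂ)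
    (d e : Fin r → ℕ) (G : MvPolynomial (Fin (n + 1)) ℂ) (q : ℕ)
    (hF : ∀ j, (F j).IsHomogeneous (d j)) (hF0 : ∀ j, F j ≠ 0) (he : ∀ j, 0 < e j)
    (hG : G.IsHomogeneous q) (hG0 : G ≠ 0) (g : MvPolynomial (Fin (n + 1)) ℂ) (hn : 1 ≤ n)
    (hlg : laurp g ≠ 0)
    (hv : ∀ v : MvPolynomial (Fin (n + 1)) ℂ → WithTop ℤ, IsV v → (∀ i, v (X i) = 0) →
      v G = 0 → (∀ j, ∃ a : ℤ, v (F j) = ((e j * a : ℤ) : WithTop ℤ)) → v g ≠ 1)
    (hLG : ∀ (K : Type) [Field K] [Algebra ℂ K] (x : Fin n → Kˣ),
      AlgebraicIndependent ℂ (fun i => (x i : K)) →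
      IntermediateField.adjoin ℂ (Set.range fun i => (x i : K)) = ⊤ →
      LogGeneralType ℂ K n (fun P => (∃ i, P.ord (x i : K) ≠ 0) ∨ P.ord (ep x (laurp g)) = 1)) :
    ∃ m0 : ℕ, ∀ m, m0 ≤ m → 0 < m → (∀ j, e j ∣ m) →
    ∀ (L : Type) [Field L] [Algebra ℂ L] (t : Fin (n + 1) → L) (w : Fin r → L),
    t 0 ≠ 0 → AlgebraicIndependent ℂ (fun i : Fin n => t i.succ / t 0) →
    (∀ j, w j ^ e j = aeval (fun i => t i ^ m) (F j)) →
    IntermediateField.adjoin ℂ (Set.range (fun i => t i / t 0) ∪
      Set.range (fun j => w j / t 0 ^ (m * d j / e j))) = ⊤ →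
    LogGeneralType ℂ L n (fun P => ∀ c : ℤ, (∀ i, c ≤ P.ord (t i)) → (∃ i, P.ord (t i) = c) →
      m * q * c < P.ord (aeval (fun i => t i ^ m) G)) := by
  classical
  -- the base
  let K := K0 n
  let x := x0 n
  let y : Fin (n + 1) → K := Fin.cons (α := fun _ => K) 1 (fun i => (x i : K))
  have hy0 : y 0 = 1 := rfl
  have hys : ∀ i : Fin n, y i.succ = x i := fun i => rfl
  have hy : ∀ i, y i ≠ 0 := by
    intro i
    refine Fin.cases ?_ (fun i => ?_) i
    · rw [hy0]; exact one_ne_zero
    · rw [hys]; exact (x i).ne_zero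
  have hyG : ∀ p : MvPolynomial (Fin (n + 1)) ℂ, aeval y p =
      algebraMap (MvPolynomial (Fin n) ℂ) K (dh p) := by
    intro p
    rw [← aeval_x0, aeval_dh]
  have hG0' : ep x (laurp g) ≠ 0 := by
    rw [ep_laurp, aeval_x0]
    intro h
    exact dh_ne_zero_of_laurp hlg (IsFractionRing.injective _ K (by rw [map_zero]; exact h))
  have : Algebra.EssFiniteType ℂ K := by
    apply IntermediateField.fg_top_iff.mp
    rw [← x0_gen n]
    exact IntermediateField.fg_adjoin_of_finite (Set.finite_range _)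
  have halg : ∀ z : K, IsAlgebraic
      (IntermediateField.adjoin ℂ (Set.range fun i => y i / y 0)) z := by
    intro z
    have h1 : z ∈ IntermediateField.adjoin ℂ (Set.range fun i => y i / y 0) := by
      have h2 : IntermediateField.adjoin ℂ (Set.range fun i => (x0 n i : K0 n)) ≤
          IntermediateField.adjoin ℂ (Set.range fun i => y i / y 0) := by
        apply IntermediateField.adjoin.mono
        rintro _ ⟨i, rfl⟩
        refine ⟨i.succ, ?_⟩
        change y i.succ / y 0 = _
        rw [hy0, div_one, hys]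
      rw [x0_gen] at h2
      exact h2 (IntermediateField.mem_top)
    exact isAlgebraic_algebraMap (⟨z, h1⟩ : IntermediateField.adjoin ℂ (Set.range fun i => y i / y 0))
  have hLG' : LogGeneralType ℂ K n (fun P => (∃ i, P.ord (y i) ≠ P.ord (y 0)) ∨
      P.ord (ep x (laurp g)) = 1) := by
    have h1 := hLG K x (x0_ind n) (x0_gen n)
    have h2 : (fun P : Place ℂ K => (∃ i, P.ord (x i : K) ≠ 0) ∨ P.ord (ep x (laurp g)) = 1) =
        (fun P : Place ℂ K => (∃ i, P.ord (y i) ≠ P.ord (y 0)) ∨ P.ord (ep x (laurp g)) = 1) := by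
      funext P
      have h3 : (∃ i, P.ord (x i : K) ≠ 0) ↔ (∃ i, P.ord (y i) ≠ P.ord (y 0)) := by
        constructor
        · rintro ⟨i, hi⟩
          refine ⟨i.succ, ?_⟩
          rwa [hy0, P.ord_one, hys]
        · rintro ⟨i, hi⟩
          revert hi
          refine Fin.cases ?_ (fun i => ?_) i
          · intro h; exact absurd rfl h
          · intro h
            refine ⟨i, ?_⟩
            rwa [hy0, P.ord_one, hys] at h
      rw [h3]
    rw [← h2]
    exact h1
  obtain ⟨m1, hm1⟩ := hlgt K n n y (ep x (laurp g)) hn hy hG0' halg hLG'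
  refine ⟨m1, fun m hm hm0 hem L _ _ t w ht0 hind heqn hgen => ?_⟩
  -- the coordinates
  have ht : ∀ i, t i ≠ 0 := by
    intro i
    refine Fin.cases ht0 (fun i => ?_) i
    have h1 := hind.ne_zero i
    intro h
    rw [h, zero_div] at h1
    exact h1 rfl
  let s : Fin (n + 1) → L := fun i => (t i / t 0) ^ m
  have hs : ∀ i, s i ≠ 0 := fun i => pow_ne_zero _ (div_ne_zero (ht i) ht0)
  have hs0 : s 0 = 1 := by
    change (t 0 / t 0) ^ m = 1
    rw [div_self ht0, one_pow]
  have hind' : AlgebraicIndependent ℂ (fun i : Fin n => s i.succ) := by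
    have h1 : ∀ i : Fin n, Transcendental ℂ ((Polynomial.X : Polynomial ℂ) ^ m) := by
      intro i
      exact (Polynomial.transcendental_X ℂ).pow hm0
    have h2 := hind.polynomial_aeval_of_transcendental h1
    have h3 : (fun i : Fin n => Polynomial.aeval (t i.succ / t 0) ((Polynomial.X : Polynomial ℂ) ^ m))
        = fun i : Fin n => s i.succ := by
      funext i
      rw [map_pow, Polynomial.aeval_X]
    rwa [h3] at h2
  let σ : K →ₐ[ℂ] L := IsFractionRing.liftAlgHom (A := MvPolynomial (Fin n) ℂ) (K := K)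
    (algebraicIndependent_iff_injective_aeval.mp hind')
  have hσ : ∀ p : MvPolynomial (Fin n) ℂ, σ (algebraMap _ K p) = aeval (fun i : Fin n => s i.succ) p := by
    intro p
    exact IsFractionRing.lift_algebraMap (algebraicIndependent_iff_injective_aeval.mp hind') p
  have hσy : ∀ i, σ (y i) = s i := by
    intro i
    refine Fin.cases ?_ (fun i => ?_) i
    · rw [hy0, map_one, hs0]
    · rw [hys]
      change σ (algebraMap (MvPolynomial (Fin n) ℂ) K (X i)) = _
      rw [hσ, aeval_X]
  have hsa : ∀ p : MvPolynomial (Fin (n + 1)) ℂ, aeval s p = σ (algebraMap _ K (dh p)) := by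
    intro p
    rw [hσ, aeval_dh]
    congr 2
    funext i
    refine Fin.cases ?_ (fun i => ?_) i
    · rw [hs0]; rfl
    · rfl
  have hsa0 : ∀ {p : MvPolynomial (Fin (n + 1)) ℂ}, dh p ≠ 0 → aeval s p ≠ 0 := by
    intro p hp
    rw [hsa]
    refine (map_ne_zero σ).mpr ?_
    intro h
    exact hp (IsFractionRing.injective _ K (by rw [map_zero]; exact h))
  have hscale : ∀ {p : MvPolynomial (Fin (n + 1)) ℂ} {k : ℕ}, p.IsHomogeneous k →
      aeval (fun i => t i ^ m) p = (t 0 ^ m) ^ k * aeval s p := by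
    intro p k hp
    rw [← aeval_scale hp]
    congr 2
    funext i
    change t i ^ m = t 0 ^ m * (t i / t 0) ^ m
    rw [← mul_pow, mul_div_cancel₀ _ ht0]
  have hwt : ∀ j, e j * (m * d j / e j) = m * d j := by
    intro j
    exact Nat.mul_div_cancel' (Dvd.dvd.mul_right (hem j) _)
  have hwe : ∀ j, (w j / t 0 ^ (m * d j / e j)) ^ e j = aeval s (F j) := by
    intro j
    rw [div_pow, heqn j, hscale (hF j), ← pow_mul, ← pow_mul, mul_comm (m * d j / e j), hwt j,
      mul_div_cancel_left₀ _ (pow_ne_zero _ ht0)]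
  let _ : Algebra K L := σ.toRingHom.toAlgebra
  have hst : IsScalarTower ℂ K L := IsScalarTower.of_algebraMap_eq' (σ.comp_algebraMap).symm
  have hmap : ∀ z : K, algebraMap K L z = σ z := fun z => rfl
  have : Algebra.EssFiniteType ℂ L := by
    apply IntermediateField.fg_top_iff.mp
    rw [← hgen]
    exact IntermediateField.fg_adjoin_of_finite ((Set.finite_range _).union (Set.finite_range _))
  have : Algebra.IsAlgebraic K L := by
    have h1 : (⊤ : IntermediateField ℂ L) ≤
        (algebraicClosure K L).restrictScalars ℂ := by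
      rw [← hgen, IntermediateField.adjoin_le_iff]
      rintro _ (⟨i, rfl⟩ | ⟨j, rfl⟩)
      · change t i / t 0 ∈ algebraicClosure K L
        rw [mem_algebraicClosure_iff]
        refine IsAlgebraic.of_pow (n := m) hm0 ?_
        have : (t i / t 0) ^ m = algebraMap K L (y i) := by rw [hmap, hσy]
        rw [this]
        exact isAlgebraic_algebraMap _
      · change w j / t 0 ^ (m * d j / e j) ∈ algebraicClosure K L
        rw [mem_algebraicClosure_iff]
        refine IsAlgebraic.of_pow (n := e j) (he j) ?_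
        rw [hwe j, hsa, ← hmap]
        exact isAlgebraic_algebraMap _
    refine ⟨fun z => ?_⟩
    have h2 : z ∈ (algebraicClosure K L).restrictScalars ℂ := h1 IntermediateField.mem_top
    exact mem_algebraicClosure_iff.mp h2
  refine hm1 L _ fun P hP => ?_
  push Not at hP
  obtain ⟨c, hc1, ⟨j0, hc2⟩, hc3⟩ := hP
  have hords : ∀ i, P.ord (s i) = m * (P.ord (t i) - P.ord (t 0)) := by
    intro i
    change P.ord ((t i / t 0) ^ m) = _
    rw [P.ord_pow, P.ord_div (ht i) ht0]
  by_cases hall : ∀ i, P.ord (t i) = c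
  · left
    have hords0 : ∀ i, P.ord (s i) = 0 := by
      intro i
      rw [hords, hall, hall, sub_self, mul_zero]
    refine ⟨fun i => ?_, ?_⟩
    · rw [hmap, hmap, hσy, hσy, hords0, hords0]
    · have hreg : ∀ i, P.Reg (s i) := fun i => Or.inr (hords0 i).ge
      have hσG : algebraMap K L (ep x (laurp g)) = aeval s g := by
        rw [hmap, ep_laurp, aeval_x0, hsa]
      rw [hσG]
      have hg0 : aeval s g ≠ 0 := hsa0 (dh_ne_zero_of_laurp hlg)
      intro h1
      refine hv (vv P s) ⟨vv_one P s, vv_mul P s, vv_add P s, vv_nonneg P hreg⟩ ?_ ?_ ?_ ?_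
      · intro i
        rw [vv_eq P (by rw [aeval_X]; exact hs i), aeval_X, hords0]
        rfl
      · have hGs : aeval s G ≠ 0 := hsa0 (dh_ne_zero hG hG0)
        have h2 : 0 ≤ P.ord (aeval s G) := (P.reg_iff hGs).1 (reg_aeval P s hreg G)
        have h3 : P.ord (aeval (fun i => t i ^ m) G) = m * q * c + P.ord (aeval s G) := by
          rw [hscale hG, P.ord_mul (pow_ne_zero _ (pow_ne_zero _ ht0)) hGs, P.ord_pow, P.ord_pow,
            hall 0]
          ring
        have h4 : P.ord (aeval s G) = 0 := by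
          have := hc3
          rw [h3] at this
          omega
        rw [vv_eq P hGs, h4]
        rfl
      · intro j
        have hFs : aeval s (F j) ≠ 0 := hsa0 (dh_ne_zero (hF j) (hF0 j))
        refine ⟨P.ord (w j / t 0 ^ (m * d j / e j)), ?_⟩
        rw [vv_eq P hFs, ← hwe j, P.ord_pow]
      · rw [vv_eq P hg0, h1]
        rfl
  · right
    push Not at hall
    obtain ⟨i0, hi0⟩ := hall
    refine ⟨j0, i0, ?_⟩
    rw [hmap, hmap, hσy, hσy, hords, hords, hc2]
    have h1 : c + 1 ≤ P.ord (t i0) := by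
      have := hc1 i0
      omega
    have h2 : (m1 : ℤ) ≤ m := by exact_mod_cast hm
    nlinarith

end Pool.Agent.Y144.KC
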