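import Pool.Agent.Y192.KC.Stm
import Pool.Agent.Y144.KC.UpCore

/-!
Covers which are highly ramified are of log general type.
-/

set_option autoImplicit false

namespace Pool.Agent.Y144.KC

theorem t_up : Pool.Agent.Y192.OG.St_lgt → Pool.Agent.Y192.KC.St_up := by
  intro hlgt n r X g k hn hg hlg hv hLG
  obtain ⟨m0, h⟩ := up_core hlgt n r X.F X.d X.e X.G X.q X.hF X.hF0 X.he X.hG X.hG0 g hn hlg hv hLG
  exact ⟨m0, fun m hm hm0 hem L _ _ t w hL =>
    h m hm hm0 hem L t w hL.ne hL.ind hL.eqn hL.gen⟩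

end Pool.Agent.Y144.KC
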